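import Mathlib
import Pool.Agent.R870.RP.Main
import Pool.Agent.H328R2.ABC.RadSum

set_option autoImplicit false

/-! # Random divisors: the truncated counting function -/

namespace Pool.Agent.R870.RC

open MvPolynomial Finset

variable {n : ℕ}

/-- the product of the prime factors of `t` not in `S` -/
def radS (S : Finset ℕ) (t : ℤ) : ℕ := ∏ p ∈ t.natAbs.primeFactors \ S, p

theorem radS_pos (S : Finset ℕ) (t : ℤ) : 0 < radS S t :=
  Finset.prod_pos fun _ hp => (Nat.prime_of_mem_primeFactors (Finset.mem_sdiff.1 hp).1).pos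

theorem rad_le (S : Finset ℕ) (t : ℤ) :
    Pool.Agent.H328R2.ABC.rad t.natAbs ≤ (∏ p ∈ S, (p + 1)) * radS S t := by
  classical
  unfold Pool.Agent.H328R2.ABC.rad radS
  have h1 : t.natAbs.primeFactors = (t.natAbs.primeFactors ∩ S) ∪ (t.natAbs.primeFactors \ S) := by
    rw [Finset.union_comm, Finset.sdiff_union_inter]
  have h2 : Disjoint (t.natAbs.primeFactors ∩ S) (t.natAbs.primeFactors \ S) :=
    (Finset.disjoint_sdiff_inter _ _).symm
  have h3 : ∏ p ∈ t.natAbs.primeFactors, p =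
      (∏ p ∈ t.natAbs.primeFactors ∩ S, p) * ∏ p ∈ t.natAbs.primeFactors \ S, p := by
    rw [← Finset.prod_union h2, ← h1]
  rw [h3]
  refine Nat.mul_le_mul_right _ ?_
  calc ∏ p ∈ t.natAbs.primeFactors ∩ S, p ≤ ∏ p ∈ t.natAbs.primeFactors ∩ S, (p + 1) :=
        Finset.prod_le_prod' fun p _ => Nat.le_succ p
    _ ≤ ∏ p ∈ S, (p + 1) :=
        Finset.prod_le_prod_of_subset_of_one_le' Finset.inter_subset_right
          fun p _ _ => Nat.succ_le_succ (Nat.zero_le p)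

/-- the nonzero integers of absolute value at most `T` -/
noncomputable def NZ (T : ℕ) : Finset ℤ := (Finset.Icc (-(T : ℤ)) T).erase 0

theorem mem_NZ {T : ℕ} {t : ℤ} : t ∈ NZ T ↔ t ≠ 0 ∧ |t| ≤ T := by
  unfold NZ
  rw [Finset.mem_erase, Finset.mem_Icc, ← abs_le]

theorem sum_radS (S : Finset ℕ) (ε : ℝ) (hε : 0 < ε) : ∃ C : ℝ, 0 < C ∧ ∀ T : ℕ, 1 ≤ T →
    ∑ t ∈ NZ T, (1 : ℝ) / radS S t ≤ C * (T : ℝ) ^ ε := by
  classical
  obtain ⟨C, hC, h⟩ := Pool.Agent.H328R2.ABC.sum_inv_rad ε hε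
  set P : ℕ := ∏ p ∈ S, (p + 1) with hP
  have hP0 : (0 : ℝ) < P := by
    have : 0 < P := Finset.prod_pos fun p _ => Nat.succ_pos p
    exact_mod_cast this
  refine ⟨2 * P * C, by positivity, fun T hT => ?_⟩
  have h1 : ∀ t ∈ NZ T, t.natAbs ∈ Finset.Icc 1 T := by
    intro t ht
    obtain ⟨h0, h1⟩ := mem_NZ.1 ht
    rw [Finset.mem_Icc]
    refine ⟨Int.natAbs_pos.2 h0, ?_⟩
    rw [← Int.natCast_natAbs] at h1
    exact_mod_cast h1
  rw [← Finset.sum_fiberwise_of_maps_to h1]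
  have h2 : ∀ V ∈ Finset.Icc 1 T, ∑ t ∈ (NZ T).filter (fun t => t.natAbs = V),
      (1 : ℝ) / radS S t ≤ 2 * P * (1 / (Pool.Agent.H328R2.ABC.rad V : ℝ)) := by
    intro V hV
    have h3 : ∀ t ∈ (NZ T).filter (fun t => t.natAbs = V), (1 : ℝ) / radS S t ≤
        P * (1 / (Pool.Agent.H328R2.ABC.rad V : ℝ)) := by
      intro t ht
      have h4 := (Finset.mem_filter.1 ht).2
      have h5 := rad_le S t
      rw [h4] at h5
      have h6 : (Pool.Agent.H328R2.ABC.rad V : ℝ) ≤ P * radS S t := by exact_mod_cast h5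
      have h7 : (0 : ℝ) < Pool.Agent.H328R2.ABC.rad V := by
        have : 0 < Pool.Agent.H328R2.ABC.rad V :=
          Finset.prod_pos fun p hp => (Nat.prime_of_mem_primeFactors hp).pos
        exact_mod_cast this
      have h8 : (0 : ℝ) < radS S t := by exact_mod_cast radS_pos S t
      rw [mul_one_div, div_le_div_iff₀ h8 h7, one_mul]
      exact h6
    refine (Finset.sum_le_sum h3).trans ?_
    rw [Finset.sum_const, nsmul_eq_mul, mul_assoc]
    have h4 : (((NZ T).filter (fun t => t.natAbs = V)).card : ℝ) ≤ 2 := by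
      have h5 : (NZ T).filter (fun t => t.natAbs = V) ⊆ {(V : ℤ), -(V : ℤ)} := by
        intro t ht
        have h6 := (Finset.mem_filter.1 ht).2
        rw [Finset.mem_insert, Finset.mem_singleton]
        rcases Int.natAbs_eq t with h7 | h7
        · left
          rw [h7, h6]
        · right
          rw [h7, h6]
      have h6 := (Finset.card_le_card h5).trans Finset.card_le_two
      exact_mod_cast h6
    have h5 : (0 : ℝ) ≤ P * (1 / (Pool.Agent.H328R2.ABC.rad V : ℝ)) := by positivity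
    exact mul_le_mul_of_nonneg_right h4 h5
  refine (Finset.sum_le_sum h2).trans ?_
  rw [← Finset.mul_sum]
  have h3 := h T hT
  calc 2 * (P : ℝ) * ∑ V ∈ Finset.Icc 1 T, 1 / (Pool.Agent.H328R2.ABC.rad V : ℝ)
      ≤ 2 * (P : ℝ) * (C * (T : ℝ) ^ ε) := mul_le_mul_of_nonneg_left h3 (by positivity)
    _ = _ := by ring

/-- the systems with nonzero values at `x` whose `S`-radicals have product at most `R` -/
noncomputable def WR {s : ℕ} (d : Fin s → ℕ) (S : Finset ℕ) (H : ℕ) (R : ℝ)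
    (x : Fin (n + 1) → ℤ) : Finset (Fin s → MvPolynomial (Fin (n + 1)) ℤ) := by
  classical
  exact (Fintype.piFinset fun i => FF n (d i) H).filter
    (fun F => (∀ i, eval x (F i) ≠ 0) ∧ ((∏ i, radS S (eval x (F i)) : ℕ) : ℝ) ≤ R)

theorem mem_WR {s : ℕ} {d : Fin s → ℕ} {S : Finset ℕ} {H : ℕ} {R : ℝ} {x : Fin (n + 1) → ℤ}
    {F : Fin s → MvPolynomial (Fin (n + 1)) ℤ} : F ∈ WR d S H R x ↔ (∀ i, F i ∈ FF n (d i) H) ∧
      (∀ i, eval x (F i) ≠ 0) ∧ ((∏ i, radS S (eval x (F i)) : ℕ) : ℝ) ≤ R := by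
  classical
  unfold WR
  rw [Finset.mem_filter, Fintype.mem_piFinset]

theorem card_WR_aux {s : ℕ} (d : Fin s → ℕ) (S : Finset ℕ) (H : ℕ) (hH : 1 ≤ H) (R : ℝ)
    (hR : 0 ≤ R) (x : Fin (n + 1) → ℤ) (i0 : Fin (n + 1)) (b : ℕ) (hx : Prim x i0 b) :
    ((WR d S H R x).card : ℝ) ≤ R * ∏ i,
      ((cst n (d i) * (FF n (d i) H).card / (H * ((min b H : ℕ) : ℝ) ^ d i) : ℝ) *
        ∑ t ∈ NZ ((Mo n (d i)).card * H * b ^ d i), (1 : ℝ) / radS S t) := by
  classical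
  set A : Fin s → ℝ := fun i =>
    (cst n (d i) * (FF n (d i) H).card / (H * ((min b H : ℕ) : ℝ) ^ d i) : ℝ) with hA
  have hA0 : ∀ i, 0 ≤ A i := fun i => div_nonneg (mul_nonneg (Nat.cast_nonneg _)
    (Nat.cast_nonneg _)) (mul_nonneg (Nat.cast_nonneg _) (pow_nonneg (Nat.cast_nonneg _) _))
  set Z : Fin s → Finset ℤ := fun i => NZ ((Mo n (d i)).card * H * b ^ d i) with hZ
  have hsub : WR d S H R x ⊆ ((Fintype.piFinset Z).filter
      (fun t => ((∏ i, radS S (t i) : ℕ) : ℝ) ≤ R)).biUnion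
        fun t => Fintype.piFinset fun i => (FF n (d i) H).filter (fun F => eval x F = t i) := by
    intro F hF
    obtain ⟨h1, h2, h3⟩ := mem_WR.1 hF
    rw [Finset.mem_biUnion]
    refine ⟨fun i => eval x (F i), Finset.mem_filter.2 ⟨?_, h3⟩, ?_⟩
    · rw [Fintype.mem_piFinset]
      intro i
      exact mem_NZ.2 ⟨h2 i, abs_eval_le ((mem_FF _).1 (h1 i)) x b hx.2.2.2⟩
    · rw [Fintype.mem_piFinset]
      intro i
      exact Finset.mem_filter.2 ⟨h1 i, rfl⟩
  have h1 : ((WR d S H R x).card : ℝ) ≤ ∑ t ∈ (Fintype.piFinset Z).filter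
      (fun t => ((∏ i, radS S (t i) : ℕ) : ℝ) ≤ R), ∏ i, A i := by
    refine (Nat.cast_le.2 ((Finset.card_le_card hsub).trans Finset.card_biUnion_le)).trans ?_
    rw [Nat.cast_sum]
    refine Finset.sum_le_sum fun t _ => ?_
    rw [Fintype.card_piFinset, Nat.cast_prod]
    exact Finset.prod_le_prod (fun i _ => Nat.cast_nonneg _)
      fun i _ => count_real (d i) H hH x i0 b hx (t i)
  refine h1.trans ?_
  have h2 : ∑ t ∈ (Fintype.piFinset Z).filter
      (fun t => ((∏ i, radS S (t i) : ℕ) : ℝ) ≤ R), ∏ i, A i ≤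
      ∑ t ∈ Fintype.piFinset Z, R * ∏ i, (A i * (1 / (radS S (t i) : ℝ))) := by
    rw [Finset.sum_filter]
    refine Finset.sum_le_sum fun t _ => ?_
    have hpos : (0 : ℝ) < ((∏ i, radS S (t i) : ℕ) : ℝ) := by
      have : 0 < ∏ i, radS S (t i) := Finset.prod_pos fun i _ => radS_pos S (t i)
      exact_mod_cast this
    have h3 : R * ∏ i, (A i * (1 / (radS S (t i) : ℝ))) =
        (∏ i, A i) * (R / ((∏ i, radS S (t i) : ℕ) : ℝ)) := by
      rw [Finset.prod_mul_distrib, Nat.cast_prod]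
      simp only [one_div, Finset.prod_inv_distrib]
      rw [div_eq_mul_inv]
      ring
    rw [h3]
    have h4 : 0 ≤ ∏ i, A i := Finset.prod_nonneg fun i _ => hA0 i
    by_cases h : ((∏ i, radS S (t i) : ℕ) : ℝ) ≤ R
    · rw [if_pos h]
      have h5 : 1 ≤ R / ((∏ i, radS S (t i) : ℕ) : ℝ) := (one_le_div hpos).2 h
      calc ∏ i, A i = (∏ i, A i) * 1 := (mul_one _).symm
        _ ≤ _ := mul_le_mul_of_nonneg_left h5 h4
    · rw [if_neg h]
      exact mul_nonneg h4 (div_nonneg hR hpos.le)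
  refine h2.trans (le_of_eq ?_)
  rw [← Finset.mul_sum]
  congr 1
  rw [← Finset.prod_univ_sum Z (fun i t => A i * (1 / (radS S t : ℝ)))]
  refine Finset.prod_congr rfl fun i _ => ?_
  rw [← Finset.mul_sum]

/-- the number of systems, in final form -/
theorem card_WR {s : ℕ} (d : Fin s → ℕ) (S : Finset ℕ) (ε : ℝ) (hε : 0 < ε) :
    ∃ K : ℝ, 0 < K ∧ ∀ H : ℕ, 1 ≤ H → ∀ (R : ℝ), 0 ≤ R → ∀ (x : Fin (n + 1) → ℤ)
      (i0 : Fin (n + 1)) (b : ℕ), Prim x i0 b →
      ((WR d S H R x).card : ℝ) ≤ K * R * ((H : ℝ) ^ (s * ε) / (H : ℝ) ^ s) *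
        ((b : ℝ) ^ ((∑ i, d i : ℕ) * ε) / ((min b H : ℕ) : ℝ) ^ (∑ i, d i)) *
        ∏ i, ((FF n (d i) H).card : ℝ) := by
  classical
  obtain ⟨C, hC, hsum⟩ := sum_radS S ε hε
  have hN1 : ∀ i, 1 ≤ (Mo n (d i)).card := fun i => by
    rw [card_Mo]
    exact Nat.choose_pos (by omega)
  refine ⟨∏ i, ((cst n (d i) : ℝ) * (C * ((Mo n (d i)).card : ℝ) ^ ε)), ?_,
    fun H hH R hR x i0 b hx => ?_⟩
  · refine Finset.prod_pos fun i _ => ?_
    have h1 : (0 : ℝ) < (Mo n (d i)).card := by exact_mod_cast hN1 i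
    have h2 : (0 : ℝ) < (cst n (d i) : ℝ) := by
      have : 0 < cst n (d i) := pow_pos (by omega) _
      exact_mod_cast this
    exact mul_pos h2 (mul_pos hC (Real.rpow_pos_of_pos h1 _))
  have hHr : (1 : ℝ) ≤ H := by exact_mod_cast hH
  have hb1 : 1 ≤ b := hx.2.2.1
  have hbr : (1 : ℝ) ≤ b := by exact_mod_cast hb1
  have hμ1 : (1 : ℝ) ≤ ((min b H : ℕ) : ℝ) := by
    have : 1 ≤ min b H := le_min hb1 hH
    exact_mod_cast this
  refine (card_WR_aux d S H hH R hR x i0 b hx).trans ?_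
  have h1 : ∀ i, (cst n (d i) * (FF n (d i) H).card / (H * ((min b H : ℕ) : ℝ) ^ d i) : ℝ) *
      ∑ t ∈ NZ ((Mo n (d i)).card * H * b ^ d i), (1 : ℝ) / radS S t ≤
      ((cst n (d i) : ℝ) * (C * ((Mo n (d i)).card : ℝ) ^ ε)) * ((H : ℝ) ^ ε / H) *
        (((b : ℝ) ^ ((d i : ℝ) * ε)) / ((min b H : ℕ) : ℝ) ^ d i) * ((FF n (d i) H).card : ℝ) := by
    intro i
    have hT : 1 ≤ (Mo n (d i)).card * H * b ^ d i :=
      Nat.mul_pos (Nat.mul_pos (hN1 i) hH) (pow_pos hb1 _)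
    have h2 := hsum _ hT
    have h3 : (((Mo n (d i)).card * H * b ^ d i : ℕ) : ℝ) ^ ε =
        ((Mo n (d i)).card : ℝ) ^ ε * (H : ℝ) ^ ε * (b : ℝ) ^ ((d i : ℝ) * ε) := by
      rw [Nat.cast_mul, Nat.cast_mul, Nat.cast_pow,
        Real.mul_rpow (mul_nonneg (Nat.cast_nonneg _) (Nat.cast_nonneg _))
          (pow_nonneg (Nat.cast_nonneg _) _),
        Real.mul_rpow (Nat.cast_nonneg _) (Nat.cast_nonneg _), ← Real.rpow_natCast (b : ℝ) (d i),
        ← Real.rpow_mul (Nat.cast_nonneg _)]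
    rw [h3] at h2
    have h4 : (0 : ℝ) ≤ (cst n (d i) * (FF n (d i) H).card /
        (H * ((min b H : ℕ) : ℝ) ^ d i) : ℝ) := div_nonneg (mul_nonneg (Nat.cast_nonneg _)
      (Nat.cast_nonneg _)) (mul_nonneg (Nat.cast_nonneg _) (pow_nonneg (Nat.cast_nonneg _) _))
    refine (mul_le_mul_of_nonneg_left h2 h4).trans (le_of_eq ?_)
    ring
  have h0 : ∀ i, (0 : ℝ) ≤ (cst n (d i) * (FF n (d i) H).card /
      (H * ((min b H : ℕ) : ℝ) ^ d i) : ℝ) *
      ∑ t ∈ NZ ((Mo n (d i)).card * H * b ^ d i), (1 : ℝ) / radS S t := fun i =>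
    mul_nonneg (div_nonneg (mul_nonneg (Nat.cast_nonneg _)
      (Nat.cast_nonneg _)) (mul_nonneg (Nat.cast_nonneg _) (pow_nonneg (Nat.cast_nonneg _) _)))
      (Finset.sum_nonneg fun t _ => by positivity)
  refine (mul_le_mul_of_nonneg_left (Finset.prod_le_prod (fun i _ => h0 i) (fun i _ => h1 i))
    hR).trans (le_of_eq ?_)
  rw [Finset.prod_mul_distrib, Finset.prod_mul_distrib, Finset.prod_mul_distrib,
    Finset.prod_div_distrib (f := fun i => (b : ℝ) ^ ((d i : ℝ) * ε)),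
    Finset.prod_pow_eq_pow_sum, Finset.prod_const, Finset.card_univ, Fintype.card_fin, div_pow]
  have h2 : ∏ i, (b : ℝ) ^ ((d i : ℝ) * ε) = (b : ℝ) ^ ((∑ i, d i : ℕ) * ε) := by
    rw [← Real.rpow_sum_of_pos (by linarith), ← Finset.sum_mul, Nat.cast_sum]
  have h3 : ((H : ℝ) ^ ε) ^ s = (H : ℝ) ^ (s * ε) := by
    rw [← Real.rpow_natCast, ← Real.rpow_mul (by linarith), mul_comm]
  rw [h2, h3]
  ring

/-- the union over the points -/
noncomputable def bad3 (n : ℕ) {s : ℕ} (W : ℕ → (Fin (n + 1) → ℤ) →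
    Finset (Fin s → MvPolynomial (Fin (n + 1)) ℤ)) (B : ℕ) :
    Finset (Fin s → MvPolynomial (Fin (n + 1)) ℤ) := by
  classical
  exact (Finset.univ : Finset (Fin (n + 1))).biUnion fun i0 => (Finset.Icc 1 B).biUnion fun b =>
    ((Bx n i0 b).filter (fun x => Prim x i0 b)).biUnion fun x => W b x

theorem card_bad3 {s : ℕ} (W : ℕ → (Fin (n + 1) → ℤ) →
    Finset (Fin s → MvPolynomial (Fin (n + 1)) ℤ)) (B : ℕ) (φ : ℕ → ℝ)
    (h0 : ∀ b ∈ Finset.Icc 1 B, 0 ≤ φ b)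
    (hA : ∀ (x : Fin (n + 1) → ℤ) (i0 : Fin (n + 1)) (b : ℕ), Prim x i0 b →
      ((W b x).card : ℝ) ≤ φ b) :
    ((bad3 n W B).card : ℝ) ≤ (n + 1) * ∑ b ∈ Finset.Icc 1 B, (2 * (3 * b) ^ n : ℝ) * φ b := by
  classical
  have h1 : ((bad3 n W B).card : ℝ) ≤ ∑ _i0 : Fin (n + 1), ∑ b ∈ Finset.Icc 1 B,
      (2 * (3 * b) ^ n : ℝ) * φ b := by
    unfold bad3
    have e1 := Finset.card_biUnion_le (s := (Finset.univ : Finset (Fin (n + 1))))
      (t := fun i0 => (Finset.Icc 1 B).biUnion fun b =>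
        ((Bx n i0 b).filter (fun x => Prim x i0 b)).biUnion fun x => W b x)
    refine (Nat.cast_le.2 e1).trans ?_
    rw [Nat.cast_sum]
    refine Finset.sum_le_sum fun i0 _ => ?_
    have e2 := Finset.card_biUnion_le (s := Finset.Icc 1 B)
      (t := fun b => ((Bx n i0 b).filter (fun x => Prim x i0 b)).biUnion fun x => W b x)
    refine (Nat.cast_le.2 e2).trans ?_
    rw [Nat.cast_sum]
    refine Finset.sum_le_sum fun b hb => ?_
    obtain ⟨hb1, hb2⟩ := Finset.mem_Icc.1 hb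
    have e3 := Finset.card_biUnion_le (s := (Bx n i0 b).filter (fun x => Prim x i0 b))
      (t := fun x => W b x)
    refine (Nat.cast_le.2 e3).trans ?_
    rw [Nat.cast_sum]
    have e4 : ∀ x ∈ (Bx n i0 b).filter (fun x => Prim x i0 b), ((W b x).card : ℝ) ≤ φ b := by
      intro x hx
      exact hA x i0 b (Finset.mem_filter.1 hx).2
    refine (Finset.sum_le_sum e4).trans ?_
    rw [Finset.sum_const, nsmul_eq_mul]
    have e5 : ((((Bx n i0 b).filter (fun x => Prim x i0 b)).card : ℕ) : ℝ) ≤ 2 * (3 * b) ^ n := by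
      have e6 := (Finset.card_filter_le (Bx n i0 b) (fun x => Prim x i0 b)).trans
        (card_Bx i0 b hb1)
      exact_mod_cast e6
    exact mul_le_mul_of_nonneg_right e5 (h0 b hb)
  refine h1.trans (le_of_eq ?_)
  rw [Finset.sum_const, Finset.card_univ, Fintype.card_fin, nsmul_eq_mul]
  push_cast
  ring

end Pool.Agent.R870.RC
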