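import Mathlib
import Pool.Agent.R870.RC.Defs

set_option autoImplicit false

/-! # Random divisors: definitions -/

namespace Pool.Agent.R870.RC

open MvPolynomial

/-- the truncated counting function: the sum of `log p` over the primes `p ∉ S` that divide `t` -/
noncomputable def N1 (S : Finset ℕ) (t : ℤ) : ℝ := ∑ p ∈ t.natAbs.primeFactors \ S, Real.log p

/-- the logarithmic height of a vector of coprime integers -/
noncomputable def hgt {n : ℕ} (x : Fin (n + 1) → ℤ) : ℝ := Real.log (⨆ j, |(x j : ℝ)|)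

/-- the systems `(F_1, …, F_s)` of forms of degrees `d_i`, `D = ∑ d_i`, with integer coefficients of
absolute value at most `H`, for which the inequality

  `(D - n - 1 - ε) h(x) + κ log H ≤ ∑ N1 (F_i (x))`

fails for some point `x` of projective `n`-space over `ℚ`, outside of the hypersurfaces `F_i = 0`, of
height at most `H ^ ((s + D - κ) / D)` -/
def BadV (n : ℕ) {s : ℕ} (d : Fin s → ℕ) (S : Finset ℕ) (ε κ : ℝ) (H : ℕ) :
    Set (Fin s → MvPolynomial (Fin (n + 1)) ℤ) :=
  {F | F ∈ Systems n d H ∧ ∃ x : Fin (n + 1) → ℤ, (∃ a : Fin (n + 1) → ℤ, ∑ j, a j * x j = 1) ∧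
    (∀ j, |(x j : ℝ)| ^ (∑ i, d i) ≤ (H : ℝ) ^ (s + (∑ i, d i : ℕ) - κ)) ∧
    (∀ i, eval x (F i) ≠ 0) ∧
    ∑ i, N1 S (eval x (F i)) < ((∑ i, d i : ℕ) - n - 1 - ε) * hgt x + κ * Real.log H}

end Pool.Agent.R870.RC
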