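import Mathlib
import Pool.Agent.R870.RV.Count
import Pool.Agent.R870.RV.Defs

set_option autoImplicit false

/-! # Random divisors: Vojta's inequality with truncated counting function -/

namespace Pool.Agent.R870.RC

open MvPolynomial Finset

variable {n : ℕ}

theorem N1_eq (S : Finset ℕ) (t : ℤ) : N1 S t = Real.log (radS S t) := by
  unfold N1 radS
  rw [Nat.cast_prod, Real.log_prod]
  intro p hp
  have := (Nat.prime_of_mem_primeFactors (Finset.mem_sdiff.1 hp).1).ne_zero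
  exact_mod_cast this

theorem hgt_eq {x : Fin (n + 1) → ℤ} {i0 : Fin (n + 1)} {b : ℕ} (hx : Prim x i0 b) :
    hgt x = Real.log b := by
  unfold hgt
  congr 1
  apply le_antisymm
  · refine ciSup_le fun j => ?_
    have h := hx.2.2.2 j
    have h2 : ((|x j| : ℤ) : ℝ) ≤ (b : ℝ) := by exact_mod_cast h
    rwa [Int.cast_abs] at h2
  · have h := hx.2.1
    have h2 : ((|x i0| : ℤ) : ℝ) = (b : ℝ) := by exact_mod_cast h
    rw [Int.cast_abs] at h2
    rw [← h2]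
    exact le_ciSup (f := fun j => |(x j : ℝ)|) (Set.finite_range _).bddAbove i0

/-- the sum over the points -/
theorem sum_final (n D : ℕ) (ε e' : ℝ) (hε : 0 < ε) (he : D * e' ≤ ε / 2) : ∃ K : ℝ, 0 ≤ K ∧ ∀ (H B : ℕ) (Y : ℝ), 1 ≤ H → 0 ≤ Y →
      ∑ b ∈ Finset.Icc 1 B, (2 * (3 * b) ^ n : ℝ) * (if (b : ℝ) ^ D ≤ Y then
        (b : ℝ) ^ (D - n - 1 - ε) * ((b : ℝ) ^ (D * e') / ((min b H : ℕ) : ℝ) ^ D) else 0) ≤
      K * (1 + Y * (H : ℝ) ^ (-(D : ℝ) - ε / 4)) := by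
  have hsum : Summable fun b : ℕ => (b : ℝ) ^ (-(1 + ε / 4)) :=
    Real.summable_nat_rpow.2 (by linarith)
  set T : ℝ := ∑' b : ℕ, (b : ℝ) ^ (-(1 + ε / 4)) with hT
  have hT0 : 0 ≤ T := tsum_nonneg fun b => Real.rpow_nonneg (Nat.cast_nonneg _) _
  refine ⟨2 * 3 ^ n * T, by positivity, fun H B Y hH hY => ?_⟩
  have hHr : (1 : ℝ) ≤ H := by exact_mod_cast hH
  have hH0 : (0 : ℝ) < H := by linarith
  set M : ℝ := 1 + Y * (H : ℝ) ^ (-(D : ℝ) - ε / 4) with hM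
  have hM1 : 1 ≤ M := by
    rw [hM]
    have : 0 ≤ Y * (H : ℝ) ^ (-(D : ℝ) - ε / 4) := mul_nonneg hY (Real.rpow_nonneg hH0.le _)
    linarith
  have key : ∀ b ∈ Finset.Icc 1 B, (2 * (3 * b) ^ n : ℝ) * (if (b : ℝ) ^ D ≤ Y then
      (b : ℝ) ^ (D - n - 1 - ε) * ((b : ℝ) ^ (D * e') / ((min b H : ℕ) : ℝ) ^ D) else 0) ≤
      2 * 3 ^ n * M * (b : ℝ) ^ (-(1 + ε / 4)) := by
    intro b hb
    obtain ⟨hb1, hb2⟩ := Finset.mem_Icc.1 hb
    have hbr : (1 : ℝ) ≤ b := by exact_mod_cast hb1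
    have hb0 : (0 : ℝ) < b := by linarith
    have hp : (0 : ℝ) ≤ (b : ℝ) ^ (-(1 + ε / 4)) := Real.rpow_nonneg hb0.le _
    by_cases hbY : (b : ℝ) ^ D ≤ Y
    swap
    · rw [if_neg hbY, mul_zero]
      positivity
    rw [if_pos hbY]
    -- collect the powers of `b`
    have h1 : (b : ℝ) ^ n * ((b : ℝ) ^ ((D : ℝ) - n - 1 - ε) * (b : ℝ) ^ (D * e')) =
        (b : ℝ) ^ D * (b : ℝ) ^ (-1 - ε + D * e') := by
      rw [← Real.rpow_natCast (b : ℝ) n, ← Real.rpow_natCast (b : ℝ) D, ← Real.rpow_add hb0,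
        ← Real.rpow_add hb0, ← Real.rpow_add hb0]
      congr 1
      ring
    have h2 : (b : ℝ) ^ (-1 - ε + D * e') ≤ (b : ℝ) ^ (-1 - ε / 2) :=
      Real.rpow_le_rpow_of_exponent_le hbr (by linarith)
    have h3 : (b : ℝ) ^ (-1 - ε / 2) = (b : ℝ) ^ (-(ε / 4)) * (b : ℝ) ^ (-(1 + ε / 4)) := by
      rw [← Real.rpow_add hb0]
      congr 1
      ring
    have hμ : (0 : ℝ) < ((min b H : ℕ) : ℝ) ^ D := by
      have : 0 < min b H := lt_min hb1 hH
      have h4 : (0 : ℝ) < ((min b H : ℕ) : ℝ) := by exact_mod_cast this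
      exact pow_pos h4 D
    have h5 : (2 * (3 * b) ^ n : ℝ) * ((b : ℝ) ^ ((D : ℝ) - n - 1 - ε) *
        ((b : ℝ) ^ (D * e') / ((min b H : ℕ) : ℝ) ^ D)) =
        2 * 3 ^ n * ((b : ℝ) ^ D / ((min b H : ℕ) : ℝ) ^ D * (b : ℝ) ^ (-1 - ε + D * e')) := by
      calc _ = 2 * 3 ^ n * (((b : ℝ) ^ n * ((b : ℝ) ^ ((D : ℝ) - n - 1 - ε) *
            (b : ℝ) ^ (D * e'))) / ((min b H : ℕ) : ℝ) ^ D) := by
            rw [mul_pow]
            ring
        _ = _ := by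
            rw [h1]
            ring
    rw [h5, mul_assoc (2 * 3 ^ n) M]
    refine mul_le_mul_of_nonneg_left ?_ (by positivity)
    have h6 : (b : ℝ) ^ D / ((min b H : ℕ) : ℝ) ^ D * (b : ℝ) ^ (-(ε / 4)) ≤ M := by
      rcases le_total b H with h | h
      · rw [min_eq_left h, div_self (by positivity), one_mul]
        exact (Real.rpow_le_one_of_one_le_of_nonpos hbr (by linarith)).trans hM1
      · rw [min_eq_right h]
        have h7 : (b : ℝ) ^ (-(ε / 4)) ≤ (H : ℝ) ^ (-(ε / 4)) :=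
          Real.rpow_le_rpow_of_nonpos hH0 (by exact_mod_cast h) (by linarith)
        have h8 : (b : ℝ) ^ D / (H : ℝ) ^ D ≤ Y / (H : ℝ) ^ D :=
          div_le_div_of_nonneg_right hbY (by positivity)
        have h9 : Y / (H : ℝ) ^ D * (H : ℝ) ^ (-(ε / 4)) = Y * (H : ℝ) ^ (-(D : ℝ) - ε / 4) := by
          rw [sub_eq_add_neg, Real.rpow_add hH0, Real.rpow_neg hH0.le (D : ℝ), Real.rpow_natCast]
          ring
        have h10 : (b : ℝ) ^ D / (H : ℝ) ^ D * (b : ℝ) ^ (-(ε / 4)) ≤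
            Y / (H : ℝ) ^ D * (H : ℝ) ^ (-(ε / 4)) :=
          mul_le_mul h8 h7 (Real.rpow_nonneg hb0.le _) (div_nonneg hY (by positivity))
        rw [h9] at h10
        linarith
    have h11 : (0 : ℝ) ≤ (b : ℝ) ^ D / ((min b H : ℕ) : ℝ) ^ D := by positivity
    calc (b : ℝ) ^ D / ((min b H : ℕ) : ℝ) ^ D * (b : ℝ) ^ (-1 - ε + D * e')
        ≤ (b : ℝ) ^ D / ((min b H : ℕ) : ℝ) ^ D * ((b : ℝ) ^ (-(ε / 4)) *
          (b : ℝ) ^ (-(1 + ε / 4))) := by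
          rw [← h3]
          exact mul_le_mul_of_nonneg_left h2 h11
      _ = ((b : ℝ) ^ D / ((min b H : ℕ) : ℝ) ^ D * (b : ℝ) ^ (-(ε / 4))) *
          (b : ℝ) ^ (-(1 + ε / 4)) := by ring
      _ ≤ _ := mul_le_mul_of_nonneg_right h6 hp
  refine (Finset.sum_le_sum key).trans ?_
  rw [← Finset.mul_sum]
  have h1 : ∑ b ∈ Finset.Icc 1 B, (b : ℝ) ^ (-(1 + ε / 4)) ≤ T :=
    Summable.sum_le_tsum _ (fun b _ => Real.rpow_nonneg (Nat.cast_nonneg _) _) hsum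
  calc 2 * 3 ^ n * M * ∑ b ∈ Finset.Icc 1 B, (b : ℝ) ^ (-(1 + ε / 4))
      ≤ 2 * 3 ^ n * M * T := mul_le_mul_of_nonneg_left h1 (by positivity)
    _ = _ := by ring

theorem fin_badV {s : ℕ} (d : Fin s → ℕ) (S : Finset ℕ) (ε κ : ℝ) (H : ℕ) :
    (BadV n d S ε κ H).Finite :=
  (fin_systems (n := n) d H).subset fun _ hF => hF.1

/-- **Random divisors.** -/
theorem random_vojta (n s : ℕ) (d : Fin s → ℕ) (hD : 1 ≤ ∑ i, d i) (S : Finset ℕ) (ε κ : ℝ)
    (hε : 0 < ε) (hκ : κ < s) : ∃ δ C : ℝ, 0 < δ ∧ ∀ H : ℕ, 1 ≤ H →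
      ((BadV n d S ε κ H).ncard : ℝ) ≤ C * (H : ℝ) ^ (-δ) * ((Systems n d H).ncard : ℝ) := by
  classical
  set D : ℕ := ∑ i, d i with hDdef
  have hDr : (1 : ℝ) ≤ D := by exact_mod_cast hD
  have hs0 : (0 : ℝ) ≤ s := Nat.cast_nonneg s
  set e' : ℝ := min (ε / (2 * D)) (min ((s - κ) / (2 * (s + 1))) (ε / (8 * (s + 1)))) with he'
  have he0 : 0 < e' := by
    rw [he']
    refine lt_min (by positivity) (lt_min ?_ (by positivity))
    exact div_pos (by linarith) (by positivity)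
  have he1 : D * e' ≤ ε / 2 := by
    have h1 : e' ≤ ε / (2 * D) := min_le_left _ _
    calc (D : ℝ) * e' ≤ D * (ε / (2 * D)) := mul_le_mul_of_nonneg_left h1 (by linarith)
      _ = ε / 2 := by field_simp
  have he2 : s * e' ≤ (s - κ) / 2 := by
    have h1 : e' ≤ (s - κ) / (2 * (s + 1)) := (min_le_right _ _).trans (min_le_left _ _)
    have h2 : (s : ℝ) * e' ≤ (s + 1) * ((s - κ) / (2 * (s + 1))) := by
      calc (s : ℝ) * e' ≤ (s + 1) * e' := by nlinarith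
        _ ≤ _ := mul_le_mul_of_nonneg_left h1 (by linarith)
    refine h2.trans (le_of_eq ?_)
    field_simp
  have he3 : s * e' ≤ ε / 8 := by
    have h1 : e' ≤ ε / (8 * (s + 1)) := (min_le_right _ _).trans (min_le_right _ _)
    have h2 : (s : ℝ) * e' ≤ (s + 1) * (ε / (8 * (s + 1))) := by
      calc (s : ℝ) * e' ≤ (s + 1) * e' := by nlinarith
        _ ≤ _ := mul_le_mul_of_nonneg_left h1 (by linarith)
    refine h2.trans (le_of_eq ?_)
    field_simp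
  obtain ⟨K, hK, hcard⟩ := card_WR (n := n) d S e' he0
  obtain ⟨K2, hK2, hsum⟩ := sum_final n D ε e' hε he1
  refine ⟨min ((s - κ) / 2) (ε / 8), (n + 1) * K * K2 * 2,
    lt_min (by linarith) (by linarith), fun H hH => ?_⟩
  have hHr : (1 : ℝ) ≤ H := by exact_mod_cast hH
  have hH0 : (0 : ℝ) < H := by linarith
  set Y : ℝ := (H : ℝ) ^ ((s : ℝ) + (D : ℝ) - κ) with hY
  have hY0 : 0 ≤ Y := Real.rpow_nonneg hH0.le _
  set B : ℕ := ⌊Y⌋₊ with hB
  -- the exceptional systems of one point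
  set W : ℕ → (Fin (n + 1) → ℤ) → Finset (Fin s → MvPolynomial (Fin (n + 1)) ℤ) := fun b x =>
    if (b : ℝ) ^ D ≤ Y then
      WR d S H ((H : ℝ) ^ κ * (b : ℝ) ^ ((D : ℝ) - n - 1 - ε)) x else ∅ with hW
  have hsub : BadV n d S ε κ H ⊆ ((bad3 n W B : Finset _) : Set _) := by
    rintro F ⟨hF, x, ⟨a, ha⟩, hxY, hx0, hlt⟩
    obtain ⟨i0, -, hi0⟩ := Finset.exists_max_image (Finset.univ : Finset (Fin (n + 1)))
      (fun i => |x i|) ⟨0, Finset.mem_univ _⟩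
    have hx1 : 1 ≤ (x i0).natAbs := by
      by_contra h
      have h1 : (x i0).natAbs = 0 := by omega
      have h2 : x i0 = 0 := Int.natAbs_eq_zero.1 h1
      have h3 : ∀ i, x i = 0 := by
        intro i
        have h4 := hi0 i (Finset.mem_univ i)
        rw [h2, abs_zero] at h4
        exact abs_eq_zero.1 (le_antisymm h4 (abs_nonneg _))
      rw [Finset.sum_eq_zero (fun i _ => by rw [h3 i, mul_zero])] at ha
      exact zero_ne_one ha
    have hp : Prim x i0 (x i0).natAbs := by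
      refine ⟨⟨a, ha⟩, (Int.natCast_natAbs _).symm, hx1, fun i => ?_⟩
      rw [Int.natCast_natAbs]
      exact hi0 i (Finset.mem_univ i)
    have hbY : (((x i0).natAbs : ℕ) : ℝ) ^ D ≤ Y := by
      have h1 := hxY i0
      rw [Nat.cast_natAbs, Int.cast_abs]
      exact h1
    have hb : (x i0).natAbs ≤ B := by
      rw [hB]
      refine Nat.le_floor ?_
      have h1 : (1 : ℝ) ≤ (((x i0).natAbs : ℕ) : ℝ) := by exact_mod_cast hx1
      exact (le_self_pow₀ h1 (by omega)).trans hbY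
    rw [Finset.mem_coe]
    unfold bad3
    simp only [Finset.mem_biUnion, Finset.mem_univ, true_and, Finset.mem_Icc, Finset.mem_filter]
    refine ⟨i0, (x i0).natAbs, ⟨hx1, hb⟩, x, ⟨mem_Bx hp, hp⟩, ?_⟩
    rw [hW]
    show F ∈ if (((x i0).natAbs : ℕ) : ℝ) ^ D ≤ Y then _ else _
    rw [if_pos hbY, mem_WR]
    refine ⟨fun i => (mem_FF _).2 (hF i), hx0, ?_⟩
    have hb0 : (0 : ℝ) < (((x i0).natAbs : ℕ) : ℝ) := by exact_mod_cast hx1
    have hr : ∀ i, (0 : ℝ) < (radS S (eval x (F i)) : ℝ) := fun i => by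
      exact_mod_cast radS_pos S (eval x (F i))
    rw [Nat.cast_prod]
    have h1 : Real.log (∏ i, (radS S (eval x (F i)) : ℝ)) = ∑ i, N1 S (eval x (F i)) := by
      rw [Real.log_prod (fun i _ => (hr i).ne')]
      exact Finset.sum_congr rfl fun i _ => (N1_eq S _).symm
    have h2 : Real.log ((H : ℝ) ^ κ * (((x i0).natAbs : ℕ) : ℝ) ^ ((D : ℝ) - n - 1 - ε)) =
        ((D : ℝ) - n - 1 - ε) * hgt x + κ * Real.log H := by
      rw [Real.log_mul (Real.rpow_pos_of_pos hH0 _).ne' (Real.rpow_pos_of_pos hb0 _).ne',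
        Real.log_rpow hH0, Real.log_rpow hb0, hgt_eq hp]
      ring
    rw [← Real.log_le_log_iff (Finset.prod_pos fun i _ => hr i)
      (mul_pos (Real.rpow_pos_of_pos hH0 _) (Real.rpow_pos_of_pos hb0 _)), h1, h2]
    exact hlt.le
  have h2 := Set.ncard_le_ncard hsub (Finset.finite_toSet _)
  rw [Set.ncard_coe_finset] at h2
  have h3 : ((BadV n d S ε κ H).ncard : ℝ) ≤ ((bad3 n W B).card : ℝ) := Nat.cast_le.2 h2
  refine h3.trans ?_
  set G : ℝ := ∏ i, ((FF n (d i) H).card : ℝ) with hG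
  have hG0 : 0 ≤ G := Finset.prod_nonneg fun i _ => Nat.cast_nonneg _
  set A : ℝ := K * ((H : ℝ) ^ κ * ((H : ℝ) ^ (s * e') / (H : ℝ) ^ s)) * G with hA
  have hA0 : 0 ≤ A := by
    rw [hA]
    exact mul_nonneg (mul_nonneg hK.le (mul_nonneg (Real.rpow_nonneg hH0.le _)
      (div_nonneg (Real.rpow_nonneg hH0.le _) (by positivity)))) hG0
  set φ : ℕ → ℝ := fun b => (if (b : ℝ) ^ D ≤ Y then
    (b : ℝ) ^ ((D : ℝ) - n - 1 - ε) * ((b : ℝ) ^ (D * e') / ((min b H : ℕ) : ℝ) ^ D) else 0) *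
      A with hφ
  have h4 : ((bad3 n W B).card : ℝ) ≤ (n + 1) * ∑ b ∈ Finset.Icc 1 B,
      (2 * (3 * b) ^ n : ℝ) * φ b := by
    refine card_bad3 W B φ (fun b hb => ?_) (fun x i0 b hx => ?_)
    · rw [hφ]
      refine mul_nonneg ?_ hA0
      by_cases h : (b : ℝ) ^ D ≤ Y
      · rw [if_pos h]
        exact mul_nonneg (Real.rpow_nonneg (Nat.cast_nonneg _) _)
          (div_nonneg (Real.rpow_nonneg (Nat.cast_nonneg _) _) (pow_nonneg (Nat.cast_nonneg _) _))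
      · rw [if_neg h]
    · rw [hφ, hW]
      show (((if (b : ℝ) ^ D ≤ Y then _ else _ : Finset _)).card : ℝ) ≤ (if _ then _ else _) * A
      by_cases h : (b : ℝ) ^ D ≤ Y
      · rw [if_pos h, if_pos h]
        have hR0 : (0 : ℝ) ≤ (H : ℝ) ^ κ * (b : ℝ) ^ ((D : ℝ) - n - 1 - ε) :=
          mul_nonneg (Real.rpow_nonneg hH0.le _) (Real.rpow_nonneg (Nat.cast_nonneg _) _)
        refine (hcard H hH _ hR0 x i0 b hx).trans (le_of_eq ?_)
        rw [hA]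
        ring
      · rw [if_neg h, if_neg h, Finset.card_empty, Nat.cast_zero, zero_mul]
  refine h4.trans ?_
  have h5 : ∑ b ∈ Finset.Icc 1 B, (2 * (3 * b) ^ n : ℝ) * φ b ≤
      K2 * (1 + Y * (H : ℝ) ^ (-(D : ℝ) - ε / 4)) * A := by
    have h6 := mul_le_mul_of_nonneg_right (hsum H B Y hH hY0) hA0
    refine le_trans (le_of_eq ?_) h6
    rw [Finset.sum_mul]
    refine Finset.sum_congr rfl fun b _ => ?_
    rw [hφ]
    ring
  have h6 : (0 : ℝ) ≤ (n : ℝ) + 1 := by positivity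
  refine (mul_le_mul_of_nonneg_left h5 h6).trans ?_
  have hYH : Y * (H : ℝ) ^ (-(D : ℝ) - ε / 4) = (H : ℝ) ^ (s - κ - ε / 4) := by
    rw [hY, ← Real.rpow_add hH0]
    congr 1
    ring
  have hHs : (H : ℝ) ^ κ * ((H : ℝ) ^ (s * e') / (H : ℝ) ^ s) = (H : ℝ) ^ (κ + s * e' - s) := by
    rw [← Real.rpow_natCast (H : ℝ) s, ← Real.rpow_sub hH0, ← Real.rpow_add hH0]
    congr 1
    ring
  rw [hYH, card_systems, Nat.cast_prod, ← hG, hA, hHs]
  set δ : ℝ := min ((s - κ) / 2) (ε / 8) with hδ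
  have h7 : (H : ℝ) ^ (κ + s * e' - s) ≤ (H : ℝ) ^ (-δ) := by
    refine Real.rpow_le_rpow_of_exponent_le hHr ?_
    have : δ ≤ (s - κ) / 2 := min_le_left _ _
    linarith
  have h8 : (H : ℝ) ^ (s - κ - ε / 4) * (H : ℝ) ^ (κ + s * e' - s) ≤ (H : ℝ) ^ (-δ) := by
    rw [← Real.rpow_add hH0]
    refine Real.rpow_le_rpow_of_exponent_le hHr ?_
    have : δ ≤ ε / 8 := min_le_right _ _
    linarith
  have h9 : (1 + (H : ℝ) ^ (s - κ - ε / 4)) * (H : ℝ) ^ (κ + s * e' - s) ≤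
      2 * (H : ℝ) ^ (-δ) := by
    rw [add_mul, one_mul]
    linarith
  calc ((n : ℝ) + 1) * (K2 * (1 + (H : ℝ) ^ (s - κ - ε / 4)) *
        (K * (H : ℝ) ^ (κ + s * e' - s) * G))
      = ((n : ℝ) + 1) * K * K2 * G * ((1 + (H : ℝ) ^ (s - κ - ε / 4)) *
        (H : ℝ) ^ (κ + s * e' - s)) := by ring
    _ ≤ ((n : ℝ) + 1) * K * K2 * G * (2 * (H : ℝ) ^ (-δ)) :=
        mul_le_mul_of_nonneg_left h9 (mul_nonneg (mul_nonneg (mul_nonneg h6 hK.le) hK2) hG0)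
    _ = _ := by ring

end Pool.Agent.R870.RC
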