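import Mathlib
import Pool.Agent.R870.RV.Defs

set_option autoImplicit false

/-! # Random finite subsets of the projective line: definitions -/

namespace Pool.Agent.R870.RC

/-- the `q`-tuples of points `α_1, …, α_q` of the projective line over `ℚ` of height at most `H`,
given by coprime integral coordinates -/
def Tuples (q H : ℕ) : Set (Fin q → Fin 2 → ℤ) :=
  {α | ∀ l, IsCoprime (α l 0) (α l 1) ∧ ∀ j, |α l j| ≤ H}

/-- the tuples for which the inequality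

  `(q - 2 - ε) h(x) + κ log H ≤ ∑_{p ∉ S} ∑_l λ^(1)_p (α_l, x)`

fails for some point `x` of the projective line over `ℚ`, `x ≠ α_l` for all `l`, of height at most
`H ^ ((2 q - κ) / q)` -/
def BadTuples (q : ℕ) (S : Finset ℕ) (ε κ : ℝ) (H : ℕ) : Set (Fin q → Fin 2 → ℤ) :=
  {α | α ∈ Tuples q H ∧ ∃ x : Fin 2 → ℤ, IsCoprime (x 0) (x 1) ∧
    (∀ l, x 0 * α l 1 - x 1 * α l 0 ≠ 0) ∧
    (∀ j, |(x j : ℝ)| ^ q ≤ (H : ℝ) ^ (2 * (q : ℝ) - κ)) ∧
    ∑ l, N1 S (x 0 * α l 1 - x 1 * α l 0) < (q - 2 - ε) * hgt (n := 1) x + κ * Real.log H}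

end Pool.Agent.R870.RC
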