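import Mathlib
import Pool.Agent.R870.RV.Final
import Pool.Agent.R870.RV.LineDefs

set_option autoImplicit false

/-! # Random finite subsets of the projective line -/

namespace Pool.Agent.R870.RC

open MvPolynomial Finset

/-- the linear form with the zero `α` -/
noncomputable def Lf (α : Fin 2 → ℤ) : MvPolynomial (Fin (1 + 1)) ℤ :=
  monomial (Finsupp.single 0 1) (α 1) + monomial (Finsupp.single 1 1) (-α 0)

theorem single_ne : (Finsupp.single (0 : Fin (1 + 1)) 1 : Fin (1 + 1) →₀ ℕ) ≠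
    Finsupp.single 1 1 := by
  intro h
  have h1 := DFunLike.congr_fun h 0
  rw [Finsupp.single_eq_same, Finsupp.single_eq_of_ne (by decide)] at h1
  exact one_ne_zero h1

theorem Lf_coeff0 (α : Fin 2 → ℤ) : (Lf α).coeff (Finsupp.single 0 1) = α 1 := by
  classical
  unfold Lf
  rw [coeff_add, coeff_monomial, coeff_monomial, if_pos rfl, if_neg single_ne.symm, add_zero]

theorem Lf_coeff1 (α : Fin 2 → ℤ) : (Lf α).coeff (Finsupp.single 1 1) = -α 0 := by
  classical
  unfold Lf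
  rw [coeff_add, coeff_monomial, coeff_monomial, if_neg single_ne, if_pos rfl, zero_add]

theorem Lf_inj : Function.Injective Lf := by
  intro α β h
  have h0 := congrArg (MvPolynomial.coeff (Finsupp.single 0 1)) h
  have h1 := congrArg (MvPolynomial.coeff (Finsupp.single 1 1)) h
  rw [Lf_coeff0, Lf_coeff0] at h0
  rw [Lf_coeff1, Lf_coeff1, neg_inj] at h1
  funext j
  fin_cases j
  · exact h1
  · exact h0

theorem Lf_forms (α : Fin 2 → ℤ) (H : ℕ) (hα : ∀ j, |α j| ≤ H) : Lf α ∈ Forms 1 1 H := by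
  classical
  refine ⟨(isHomogeneous_monomial _ (Finsupp.degree_single _ _)).add
    (isHomogeneous_monomial _ (Finsupp.degree_single _ _)), fun m => ?_⟩
  unfold Lf
  rw [coeff_add, coeff_monomial, coeff_monomial]
  by_cases h0 : Finsupp.single 0 1 = m
  · rw [if_pos h0, if_neg (fun h => single_ne (h0.trans h.symm)), add_zero]
    exact hα 1
  · rw [if_neg h0, zero_add]
    by_cases h1 : Finsupp.single 1 1 = m
    · rw [if_pos h1, abs_neg]
      exact hα 0
    · rw [if_neg h1, abs_zero]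
      exact Nat.cast_nonneg H

theorem Lf_eval (α x : Fin 2 → ℤ) :
    eval (x : Fin (1 + 1) → ℤ) (Lf α) = x 0 * α 1 - x 1 * α 0 := by
  unfold Lf
  rw [map_add, eval_monomial, eval_monomial, Finsupp.prod_single_index,
    Finsupp.prod_single_index, pow_one, pow_one]
  · ring
  · exact pow_zero _
  · exact pow_zero _

theorem fin_tuples (q H : ℕ) : (Tuples q H).Finite := by
  classical
  refine Set.Finite.subset (Finset.finite_toSet (Fintype.piFinset fun _ : Fin q =>
    Fintype.piFinset fun _ : Fin 2 => Finset.Icc (-(H : ℤ)) H)) ?_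
  intro α hα
  rw [Finset.mem_coe, Fintype.mem_piFinset]
  intro l
  rw [Fintype.mem_piFinset]
  intro j
  rw [Finset.mem_Icc, ← abs_le]
  exact (hα l).2 j

/-- the number of pairs of coprime numbers -/
theorem card_coprime (H : ℕ) : (H : ℝ) ^ 2 / 2 ≤
    (((Finset.Icc 1 H ×ˢ Finset.Icc 1 H).filter (fun p => Nat.Coprime p.1 p.2)).card : ℝ) := by
  classical
  set P : Finset (ℕ × ℕ) := Finset.Icc 1 H ×ˢ Finset.Icc 1 H with hP
  have hcardP : (P.card : ℝ) = (H : ℝ) ^ 2 := by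
    rw [hP, Finset.card_product, Nat.card_Icc, Nat.add_sub_cancel]
    push_cast
    ring
  set kk : ℕ → ℕ := fun j => if j = 0 then 2 else 2 * j + 1 with hkk
  have hkk0 : ∀ j, 0 < kk j := by
    intro j
    rw [hkk]
    by_cases h : j = 0
    · simp [h]
    · simp [h]
  have hsub : P.filter (fun p => ¬ Nat.Coprime p.1 p.2) ⊆ (Finset.range (H + 1)).biUnion
      fun j => ((Finset.Icc 1 H).filter (fun a => kk j ∣ a)) ×ˢ
        ((Finset.Icc 1 H).filter (fun a => kk j ∣ a)) := by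
    rintro ⟨a, b⟩ h
    obtain ⟨h1, h2⟩ := Finset.mem_filter.1 h
    obtain ⟨ha, hb⟩ := Finset.mem_product.1 h1
    obtain ⟨p, hp, hpa, hpb⟩ := Nat.Prime.not_coprime_iff_dvd.1 h2
    rw [Finset.mem_biUnion]
    have hpH : p ≤ H := (Nat.le_of_dvd (Finset.mem_Icc.1 ha).1 hpa).trans (Finset.mem_Icc.1 ha).2
    rcases hp.eq_two_or_odd with h3 | h3
    · refine ⟨0, Finset.mem_range.2 (Nat.succ_pos _), ?_⟩
      have h4 : kk 0 = p := by rw [hkk, h3]; rfl
      rw [h4]
      exact Finset.mem_product.2 ⟨Finset.mem_filter.2 ⟨ha, hpa⟩, Finset.mem_filter.2 ⟨hb, hpb⟩⟩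
    · refine ⟨(p - 1) / 2, Finset.mem_range.2 (by omega), ?_⟩
      have h5 := hp.two_le
      have h4 : kk ((p - 1) / 2) = p := by
        rw [hkk]
        show (if (p - 1) / 2 = 0 then 2 else 2 * ((p - 1) / 2) + 1) = p
        rw [if_neg (by omega)]
        omega
      rw [h4]
      exact Finset.mem_product.2 ⟨Finset.mem_filter.2 ⟨ha, hpa⟩, Finset.mem_filter.2 ⟨hb, hpb⟩⟩
  have hmul : ∀ k : ℕ, 0 < k →
      (((Finset.Icc 1 H).filter (fun a => k ∣ a)).card : ℝ) ≤ (H : ℝ) / k := by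
    intro k hk
    have h1 : ((Finset.Icc 1 H).filter (fun a => k ∣ a)).card = H / k := by
      rw [← Nat.Ioc_filter_dvd_card_eq_div H k]
      congr 1
    rw [h1]
    exact Nat.cast_div_le
  have h1 : ((P.filter (fun p => ¬ Nat.Coprime p.1 p.2)).card : ℝ) ≤
      ∑ j ∈ Finset.range (H + 1), ((H : ℝ) / kk j) ^ 2 := by
    refine (Nat.cast_le.2 ((Finset.card_le_card hsub).trans Finset.card_biUnion_le)).trans ?_
    rw [Nat.cast_sum]
    refine Finset.sum_le_sum fun j _ => ?_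
    rw [Finset.card_product, Nat.cast_mul, sq]
    exact mul_le_mul (hmul _ (hkk0 j)) (hmul _ (hkk0 j)) (Nat.cast_nonneg _) (by positivity)
  have h2 : ∀ N : ℕ, ∑ j ∈ Finset.range (N + 1), (1 / (kk j : ℝ)) ^ 2 ≤
      1 / 2 - 1 / (4 * ((N : ℝ) + 1)) := by
    intro N
    induction N with
    | zero =>
      rw [Finset.sum_range_one]
      have h3 : kk 0 = 2 := rfl
      rw [h3]
      norm_num
    | succ N ih =>
      rw [Finset.sum_range_succ]
      have h3 : kk (N + 1) = 2 * (N + 1) + 1 := by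
        rw [hkk]
        show (if N + 1 = 0 then 2 else 2 * (N + 1) + 1) = _
        rw [if_neg (by omega)]
      rw [h3]
      have hN : (0 : ℝ) ≤ N := Nat.cast_nonneg N
      have h4 : (1 / ((2 * (N + 1) + 1 : ℕ) : ℝ)) ^ 2 ≤
          1 / (4 * ((N : ℝ) + 1)) - 1 / (4 * (((N + 1 : ℕ) : ℝ) + 1)) := by
        push_cast
        have h5 : 1 / (4 * ((N : ℝ) + 1)) - 1 / (4 * ((N : ℝ) + 1 + 1)) =
            1 / (4 * ((N : ℝ) + 1) * ((N : ℝ) + 1 + 1)) := by
          field_simp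
          ring
        rw [h5, one_div_pow]
        refine one_div_le_one_div_of_le (by positivity) ?_
        nlinarith
      linarith
  have h3 : ∑ j ∈ Finset.range (H + 1), ((H : ℝ) / kk j) ^ 2 ≤ (H : ℝ) ^ 2 / 2 := by
    have h4 : ∀ j ∈ Finset.range (H + 1), ((H : ℝ) / kk j) ^ 2 =
        (H : ℝ) ^ 2 * (1 / (kk j : ℝ)) ^ 2 := by
      intro j _
      ring
    rw [Finset.sum_congr rfl h4, ← Finset.mul_sum]
    have h5 := h2 H
    have h6 : (0 : ℝ) ≤ 1 / (4 * ((H : ℝ) + 1)) := by positivity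
    calc (H : ℝ) ^ 2 * ∑ j ∈ Finset.range (H + 1), (1 / (kk j : ℝ)) ^ 2
        ≤ (H : ℝ) ^ 2 * (1 / 2) := mul_le_mul_of_nonneg_left (by linarith) (by positivity)
      _ = _ := by ring
  have h4 : (P.filter (fun p => Nat.Coprime p.1 p.2)).card +
      (P.filter (fun p => ¬ Nat.Coprime p.1 p.2)).card = P.card :=
    Finset.card_filter_add_card_filter_not _
  have h5 : ((P.filter (fun p => Nat.Coprime p.1 p.2)).card : ℝ) +
      ((P.filter (fun p => ¬ Nat.Coprime p.1 p.2)).card : ℝ) = (H : ℝ) ^ 2 := by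
    rw [← hcardP]
    exact_mod_cast h4
  linarith

theorem card_tuples (q H : ℕ) : ((H : ℝ) ^ 2 / 2) ^ q ≤ ((Tuples q H).ncard : ℝ) := by
  classical
  set Q : Finset (ℕ × ℕ) :=
    (Finset.Icc 1 H ×ˢ Finset.Icc 1 H).filter (fun p => Nat.Coprime p.1 p.2) with hQ
  have h1 : (Fintype.piFinset fun _ : Fin q => Q).card ≤ (Tuples q H).ncard := by
    rw [Set.ncard_eq_toFinset_card _ (fin_tuples q H)]
    refine Finset.card_le_card_of_injOn
      (fun f l => ![((f l).1 : ℤ), ((f l).2 : ℤ)]) ?_ ?_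
    · intro f hf
      rw [Finset.mem_coe, Fintype.mem_piFinset] at hf
      rw [Finset.mem_coe, Set.Finite.mem_toFinset]
      intro l
      obtain ⟨h2, h3⟩ := Finset.mem_filter.1 (hf l)
      obtain ⟨ha, hb⟩ := Finset.mem_product.1 h2
      refine ⟨?_, fun j => ?_⟩
      · show IsCoprime ((f l).1 : ℤ) ((f l).2 : ℤ)
        exact Nat.isCoprime_iff_coprime.2 h3
      · fin_cases j
        · show |((f l).1 : ℤ)| ≤ H
          rw [Nat.abs_cast]
          exact_mod_cast (Finset.mem_Icc.1 ha).2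
        · show |((f l).2 : ℤ)| ≤ H
          rw [Nat.abs_cast]
          exact_mod_cast (Finset.mem_Icc.1 hb).2
    · intro f _ g _ h
      funext l
      have h2 := congrFun h l
      have h3 : ((f l).1 : ℤ) = ((g l).1 : ℤ) := congrFun h2 0
      have h4 : ((f l).2 : ℤ) = ((g l).2 : ℤ) := congrFun h2 1
      exact Prod.ext (by exact_mod_cast h3) (by exact_mod_cast h4)
  rw [Fintype.card_piFinset, Finset.prod_const, Finset.card_univ, Fintype.card_fin] at h1
  have h2 : (Q.card : ℝ) ^ q ≤ ((Tuples q H).ncard : ℝ) := by exact_mod_cast h1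
  exact (pow_le_pow_left₀ (by positivity) (card_coprime H) q).trans h2

/-- **Random finite subsets of the projective line.** -/
theorem random_line (q : ℕ) (hq : 1 ≤ q) (S : Finset ℕ) (ε κ : ℝ) (hε : 0 < ε) (hκ : κ < q) :
    ∃ δ C : ℝ, 0 < δ ∧ ∀ H : ℕ, 1 ≤ H →
      (Tuples q H).Finite ∧ ((H : ℝ) ^ 2 / 2) ^ q ≤ ((Tuples q H).ncard : ℝ) ∧
      ((BadTuples q S ε κ H).ncard : ℝ) ≤ C * (H : ℝ) ^ (-δ) * ((Tuples q H).ncard : ℝ) := by
  classical
  have hsum : ∑ _i : Fin q, 1 = q := by simp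
  obtain ⟨δ, C, hδ, h⟩ := random_vojta 1 q (fun _ => 1) (by rw [hsum]; exact hq) S ε κ hε hκ
  refine ⟨δ, |C| * 18 ^ q, hδ, fun H hH => ⟨fin_tuples q H, card_tuples q H, ?_⟩⟩
  have hHr : (1 : ℝ) ≤ H := by exact_mod_cast hH
  have h1 : (BadTuples q S ε κ H).ncard ≤ (BadV 1 (fun _ : Fin q => 1) S ε κ H).ncard := by
    refine Set.ncard_le_ncard_of_injOn (fun α l => Lf (α l)) ?_ ?_ (fin_badV _ S ε κ H)
    · rintro α ⟨hα, x, hx, hx0, hxH, hlt⟩
      refine ⟨fun l => Lf_forms (α l) H (hα l).2, x, ?_, ?_, fun l => ?_, ?_⟩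
      · obtain ⟨a, b, hab⟩ := hx
        refine ⟨![a, b], ?_⟩
        rw [Fin.sum_univ_two]
        exact hab
      · intro j
        rw [hsum]
        have h2 := hxH j
        have h3 : (q : ℝ) + (q : ℝ) - κ = 2 * (q : ℝ) - κ := by ring
        rw [h3]
        exact h2
      · show eval x (Lf (α l)) ≠ 0
        rw [Lf_eval]
        exact hx0 l
      · show ∑ l, N1 S (eval x (Lf (α l))) < _
        simp only [Lf_eval]
        rw [hsum]
        have h3 : (q : ℝ) - ((1 : ℕ) : ℝ) - 1 - ε = q - 2 - ε := by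
          push_cast
          ring
        rw [h3]
        exact hlt
    · intro α _ β _ h2
      funext l
      exact Lf_inj (congrFun h2 l)
  have h2 : ((BadTuples q S ε κ H).ncard : ℝ) ≤
      ((BadV 1 (fun _ : Fin q => 1) S ε κ H).ncard : ℝ) := Nat.cast_le.2 h1
  have h3 : ((Systems 1 (fun _ : Fin q => 1) H).ncard : ℝ) ≤ 18 ^ q * ((Tuples q H).ncard : ℝ) := by
    have h4 : (Systems 1 (fun _ : Fin q => 1) H).ncard = ((2 * H + 1) ^ 2) ^ q := by
      rw [card_systems]
      have h5 : ∀ i : Fin q, (FF 1 1 H).card = (2 * H + 1) ^ 2 := by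
        intro i
        rw [card_FF, card_Mo]
        rfl
      rw [Finset.prod_congr rfl fun i _ => h5 i, Finset.prod_const, Finset.card_univ,
        Fintype.card_fin]
    rw [h4]
    push_cast
    have h5 : (2 * (H : ℝ) + 1) ^ 2 ≤ 18 * ((H : ℝ) ^ 2 / 2) := by nlinarith
    refine (pow_le_pow_left₀ (by positivity) h5 q).trans ?_
    rw [mul_pow]
    exact mul_le_mul_of_nonneg_left (card_tuples q H) (by positivity)
  have hp : (0 : ℝ) ≤ (H : ℝ) ^ (-δ) := Real.rpow_nonneg (by linarith) _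
  calc ((BadTuples q S ε κ H).ncard : ℝ)
      ≤ C * (H : ℝ) ^ (-δ) * ((Systems 1 (fun _ : Fin q => 1) H).ncard : ℝ) := h2.trans (h H hH)
    _ ≤ |C| * (H : ℝ) ^ (-δ) * ((Systems 1 (fun _ : Fin q => 1) H).ncard : ℝ) :=
        mul_le_mul_of_nonneg_right (mul_le_mul_of_nonneg_right (le_abs_self C) hp)
          (Nat.cast_nonneg _)
    _ ≤ |C| * (H : ℝ) ^ (-δ) * (18 ^ q * ((Tuples q H).ncard : ℝ)) :=
        mul_le_mul_of_nonneg_left h3 (mul_nonneg (abs_nonneg C) hp)
    _ = _ := by ring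

end Pool.Agent.R870.RC
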